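import Mathlib
import Pool.Agent.Y733.VR.Final2

set_option autoImplicit false

/-!
# Vojta's conjecture for algebraic points: products of Fermat curves and the degree of the points

`k` is any number field and `X` is the product of `n` copies of the Fermat curve `a ^ N + b ^ N = 1`
of degree `N`; `A` is the sum of the pullbacks of a line section from the `n` factors, and
`K_X = (N - 3) A`. The finite map `(a i, b i) ↦ (a i ^ N)` sends a proper Zariski-closed subset of
`X` to a proper Zariski-closed subset of `(ℙ¹)^n`, which lies in the zero set of some polynomial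
`G ≠ 0` in `n` variables (in the affine part).
-/

namespace Pool.Agent.Results.MP_9b9442_nt.FermatProductsDegree

open NumberField Module

/-- The height `h_A(P)` of the point `P = (a i, b i)` for `A = ⊞ O(1)`, relative to `k`: the sum of
the logarithmic heights of the points `(a i : b i : 1)` of the projective plane. -/
noncomputable def height (k : Type) [Field k] {F : Type} [Field F] [NumberField F] [Algebra k F]
    {n : ℕ} (a b : Fin n → F) : ℝ :=
  (∑ i, Height.logHeight ![a i, b i, 1]) / finrank k F

/-- The logarithmic discriminant `d_k(F)`. -/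
noncomputable def logDisc (k : Type) [Field k] [NumberField k] (F : Type) [Field F]
    [NumberField F] [Algebra k F] : ℝ :=
  Real.log |(discr F : ℝ)| / finrank k F - Real.log |(discr k : ℝ)|

/-- Vojta's inequality `h_K(P) ≤ κ d_k(P) + ε h_A(P) + C` on the product of `n` Fermat curves of
degree `N`, for all affine points `P` of degree at most `d` over `k` outside the zero set of
`G (a 1 ^ N, …, a n ^ N)`. The conjecture has `κ = 1`. -/
def VojtaInequality {k : Type} [Field k] [NumberField k] (N : ℕ) {n : ℕ}
    (G : MvPolynomial (Fin n) k) (ε κ C : ℝ) (d : ℕ) : Prop :=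
  ∀ (F : Type) [Field F] [NumberField F] [Algebra k F] (a b : Fin n → F),
    (∀ i, a i ^ N + b i ^ N = 1) → finrank k F ≤ d →
    IntermediateField.adjoin k (Set.range a ∪ Set.range b) = ⊤ →
    MvPolynomial.aeval (fun i => a i ^ N) G ≠ 0 →
    (N - 3) * height k a b ≤ κ * logDisc k F + ε * height k a b + C

/-- **The exceptional set depends on the degree bound, and the factor `dim X` is needed without
one.** Let `G ≠ 0`, `κ ≥ 0` and `κ N < (N - 3 - ε) m`. If Vojta's inequality (with `κ d_k` in place
of `d_k`) holds for some constant `C` for all affine points of degree at most `d` over `k` of the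
product of `n` Fermat curves of degree `N`, outside the zero set of `G (a 1 ^ N, …, a n ^ N)`, and
`2 ^ ((m - 1) J + 2) N ^ (2 n) ≤ d`, then `G` has degree less than `2 ^ J` in fewer than `m` of the
`n` variables. -/
theorem result (k : Type) [Field k] [NumberField k] (N n : ℕ) (hN : N ≠ 0)
    (G : MvPolynomial (Fin n) k) (hG : G ≠ 0) (ε κ C : ℝ) (hκ : 0 ≤ κ) (d m J : ℕ)
    (hm : κ * N < (N - 3 - ε) * m) (hd : 2 ^ ((m - 1) * J + 2) * N ^ (2 * n) ≤ d)
    (hV : VojtaInequality N G ε κ C d) :
    (Finset.univ.filter fun i => G.degreeOf i < 2 ^ J).card < m :=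
  Pool.Agent.Y733.VR.main2 k N n hN G hG d ε κ C hκ (fun F _ _ _ a b => hV F a b) m J hm hd

end Pool.Agent.Results.MP_9b9442_nt.FermatProductsDegree
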