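import Pool.Agent.Y213.BD.Final

/-!
# Members of a family without points of bounded degree

`E : y² = x³ + a x + b` is an elliptic curve over a number field `K` (any rank, with or without
complex multiplication) and `X` a closed subset of `E ^ r × ℙ ^ n` over `K`, a family of closed
subsets `X_y ⊆ E ^ r` with parameter space `ℙ ^ n`. Suppose that for all `1 ≤ m ≤ M` and all complex
points `S` of `E ^ r` the `y` such that `S` is a sum of `m` points of `X_y` lie on a hypersurface
of degree `k`. Then for every `ε > 0` the members of height at most `B` with a point of degree at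
most `M` over `K` lie on `O(B ^ ε)` hypersurfaces of degree `k`. All other members satisfy Vojta's
conjecture for points of degree at most `M`, with `Z` empty.

The hypothesis says that `M` is small with respect to the codimension of the `X_y`. For example
it holds (for some `k`) if the `X_y` are the intersections of `r - d` divisors which move in linear
systems in which any `M` distinct points impose independent conditions, and `d M < r` (for curves
`X_y`: if `M < r`).
-/

set_option autoImplicit false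

namespace Pool.Agent.Results.MP_9b9442_nt.MembersWithoutPoints

open MvPolynomial NumberField

open scoped LinearAlgebra.Projectivization

/-- the curve `y² = x³ + a x + b` -/
def curve {F : Type} [Field F] (a b : F) : WeierstrassCurve F := ⟨0, 0, 0, a, b⟩

/-- homogeneous coordinates of a point in the projective plane -/
def coords {F : Type} [Field F] {W : WeierstrassCurve F} : W.toAffine.Point → Fin 3 → F
  | .zero => ![0, 1, 0]
  | .some x y _ => ![x, y, 1]

/-- `F` is homogeneous of degree `d i` in the coordinates `(i, 0), (i, 1), (i, 2)` of the `i`-th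
point of the plane, and homogeneous of degree `m` in the last `n + 1` variables -/
def MultiHom {O : Type} [CommRing O] {r n : ℕ} (F : MvPolynomial ((Fin r × Fin 3) ⊕ Fin (n + 1)) O)
    (d : Fin r → ℕ) (m : ℕ) : Prop :=
  ∀ e ∈ F.support, (∀ i, ∑ j, e (Sum.inl (i, j)) = d i) ∧ ∑ i, e (Sum.inr i) = m

/-- the points over the extension `F` of `K` (by `ι`) of the member `X_y` of the family `X` given by
the `G e`: the points `P` of `E ^ r` with `G_e(P; y) = 0` -/
def Member {K F : Type} [Field K] [Field F] (ι : K →+* F) (a b : 𝓞 K) {r n q : ℕ}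
    (G : Fin q → MvPolynomial ((Fin r × Fin 3) ⊕ Fin (n + 1)) (𝓞 K)) (y : Fin (n + 1) → F) :
    Set (Fin r → (curve (ι a) (ι b)).toAffine.Point) :=
  {P | ∀ e, eval₂ (ι.comp (algebraMap (𝓞 K) K)) (Sum.elim (fun ij => coords (P ij.1) ij.2) y)
    (G e) = 0}

open scoped Classical in
/-- `S` is a sum of `m` points of the member `X_y` over `F` -/
def IsSum {K F : Type} [Field K] [Field F] (ι : K →+* F) (a b : 𝓞 K) {r n q : ℕ}
    (G : Fin q → MvPolynomial ((Fin r × Fin 3) ⊕ Fin (n + 1)) (𝓞 K)) (m : ℕ)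
    (S : Fin r → (curve (ι a) (ι b)).toAffine.Point) (y : Fin (n + 1) → F) : Prop :=
  ∃ P : Fin m → Fin r → (curve (ι a) (ι b)).toAffine.Point,
    (∀ j, P j ∈ Member ι a b G y) ∧ ∀ i, ∑ j, P j i = S i

/-- the member `X_y`, `y` a `K`-rational point of `ℙ ^ n`, has a point over an extension of `K` of
degree at most `M` -/
def HasPoint {K : Type} [Field K] (a b : 𝓞 K) {r n q : ℕ}
    (G : Fin q → MvPolynomial ((Fin r × Fin 3) ⊕ Fin (n + 1)) (𝓞 K)) (M : ℕ)
    (y : ℙ K (Fin (n + 1) → K)) : Prop :=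
  ∃ (F : Type) (_ : Field F) (_ : Algebra K F), FiniteDimensional K F ∧
    Module.finrank K F ≤ M ∧
    (Member (algebraMap K F) a b G fun i => algebraMap K F (y.rep i)).Nonempty

theorem coords_eq {F : Type} [Field F] {a b : F} (P : Pool.Agent.H901R3.MS.Pt a b) :
    coords P = Pool.Agent.H901R3.MS.rep P := by
  rcases P with _ | ⟨x, y, h⟩ <;> rfl

theorem result (K : Type) [Field K] [NumberField K] (a b : 𝓞 K)
    (hE : 4 * a ^ 3 + 27 * b ^ 2 ≠ 0) (r n q : ℕ)
    (G : Fin q → MvPolynomial ((Fin r × Fin 3) ⊕ Fin (n + 1)) (𝓞 K))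
    (d : Fin q → Fin r → ℕ) (deg : Fin q → ℕ) (hG : ∀ e, MultiHom (G e) (d e) (deg e))
    (σ : K →+* ℂ) (M k : ℕ) (hk : 1 ≤ k)
    (hX : ∀ m, 1 ≤ m → m ≤ M → ∀ S : Fin r → (curve (σ a) (σ b)).toAffine.Point,
      ∃ g : MvPolynomial (Fin (n + 1)) ℂ, g ≠ 0 ∧ g.IsHomogeneous k ∧
        ∀ y : ℙ ℂ (Fin (n + 1) → ℂ), IsSum σ a b G m S y.rep → eval y.rep g = 0)
    (ε : ℝ) (hε : 0 < ε) :
    ∃ C : ℝ, ∀ B : ℝ, 1 ≤ B → ∃ FF : Finset (MvPolynomial (Fin (n + 1)) K),
      (FF.card : ℝ) ≤ C * B ^ ε ∧ (∀ f ∈ FF, f ≠ 0 ∧ f.IsHomogeneous k) ∧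
      ∀ y : ℙ K (Fin (n + 1) → K), HasPoint a b G M y → y.mulHeight ≤ B →
        ∃ f ∈ FF, eval y.rep f = 0 := by
  obtain ⟨C, hC⟩ := Pool.Agent.Y213.BD.partA K r (n + 1) q M a b hE G d deg
    (fun e x hx => (hG e x hx).1) (fun e x hx => (hG e x hx).2) k hk σ (by
      intro m hm S
      obtain ⟨g, hg0, hg1, hg2⟩ := hX (m + 1) (by omega) (by omega) S
      refine ⟨g, hg0, hg1, fun y hy => hg2 y ?_⟩
      obtain ⟨P, hP1, hP2⟩ := hy
      refine ⟨P, fun j e => ?_, hP2⟩
      have h1 := hP1 j e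
      unfold Pool.Agent.Y213.EC.vl at h1
      rw [← h1]
      congr 1
      funext ij
      rcases ij with ij | i
      · exact congrFun (coords_eq (P j ij.1)) ij.2
      · rfl) ε hε
  refine ⟨C, fun B hB => ?_⟩
  obtain ⟨FF, h1, h2, h3⟩ := hC B hB
  refine ⟨FF, h1, h2, fun y hy hyB => h3 y ?_ hyB⟩
  obtain ⟨F, hF1, hF2, hF3, hF4, P, hP⟩ := hy
  have hpos : 0 < Module.finrank K F := Module.finrank_pos
  refine ⟨Module.finrank K F - 1, by omega, F, hF1, hF2, by omega,
    fun i => Pool.Agent.H901R3.MS.rep (P i), fun i => Pool.Agent.Y213.EC.onK_rep _, fun e => ?_⟩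
  have h4 := hP e
  unfold Pool.Agent.Y213.EC.vl
  rw [← h4]
  congr 1
  funext ij
  rcases ij with ij | i
  · exact (congrFun (coords_eq (P ij.1)) ij.2).symm
  · rfl

end Pool.Agent.Results.MP_9b9442_nt.MembersWithoutPoints
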