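import Mathlib
import Pool.Agent.Y557.OE.Set

/-!
# The discriminants of algebraic points: one exceptional set for all curves over all number fields and
all products

Let `K` be a number field, for example `ℚ`, and `a_1, …, a_q` distinct elements of `K`, `q ≥ 3`, for
example `q = 3`. We consider ALL number fields `k` containing `K`, all smooth projective curves
`X_1, …, X_m` over `k` and all finite maps `t_i : X_i → ℙ¹` of degree `N_i` over `k`. Let `A_i` be
the ring of the functions on `X_i` with poles only over `∞`: a Dedekind domain, finite over `k[t]`.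
The number of the geometric points of `X_i` over `a_j` is `n_{i j} = dim (A_i / rad (t - a_j))`.

If the `t_i` are unramified outside the fibres over the `a_j` (by Belyi's theorem there are such
maps for every curve over every number field, with `q = 3` and the same `a_j`), then
`(deg K_{X_i}) / N_i = q - 2 - (∑_j n_{i j}) / N_i`, so that for a point `P` of the product
`X = X_1 × … × X_m` with `t_i(P) = x_i` the height `h_{K_X}(P)` is
`∑_i (∑_j (1 - n_{i j} / N_i) - 2) h(x_i)` up to `ε ∑_i h(x_i) + O(1)`.

The points `P` of `X` (not over `∞`) over a number field `L` containing `k` are the tuples of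
homomorphisms `φ_i : A_i → L` over `k`. The tuples `x = (x_1, …, x_m)` of elements of `K`, of all
heights, are ordered by the largest of the truncated counting functions of the `x_i` with respect to
`[a_1] + … + [a_q]`; there are `X ^ (2 m / q + o(1))` of them for which these are at most `log X`.
We prove that for every `κ > 0` there is a set `E ⊆ K ^ m`, which contains only
`O(X ^ (2 m / q - ν))` of these tuples, such that for all `k`, all `X_i` and all `t_i`, with a
constant `c` depending on these data, all points `P` of `X` over all tuples `x` not in `E` and all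
number fields `L` over which `P` is defined satisfy
`∑_i (∑_j (1 - n_{i j} / N_i) - κ) h(x_i) ≤ d(L) + c`.
The height `h` and the logarithmic discriminant `d(L)` are the absolute ones: those relative to `k`
divided by `[k : ℚ]`, up to the constant `log |disc k| / [k : ℚ]` for the discriminant.
-/

set_option autoImplicit false

namespace Pool.Agent.Results.MP_9b9442_nt.OneExceptionalSet

open Polynomial IsDedekindDomain NumberField

/-- The function `t` on the curve with the ring of functions `A`. -/
noncomputable def coord (k A : Type) [Field k] [CommRing A] [Algebra k[X] A] : A :=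
  algebraMap k[X] A X

/-- The absolute logarithmic height of the point `x` of the line. -/
noncomputable def height {K : Type} [Field K] [NumberField K] (x : K) : ℝ :=
  Height.logHeight₁ x / Module.finrank ℚ K

open Classical in
/-- The truncated counting function of `[a_1] + … + [a_q]` at the point `x` of the line over `K`:
the sum of `log N(v)` over the primes `v` of `K` at which `x` and some `a_j` have the same
reduction. -/
noncomputable def counting {K : Type} [Field K] [NumberField K] {q : ℕ}
    (a : Fin q → K) (x : K) : ℝ :=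
  ∑ᶠ v : HeightOneSpectrum (𝓞 K),
    if ∃ j, v.valuation K (x - a j) < max (v.valuation K (a j)) 1 * max (v.valuation K x) 1
    then Real.log (Ideal.absNorm v.asIdeal) else 0

/-- The (absolute) logarithmic discriminant `d(L) = log |disc L| / [L : ℚ]`. -/
noncomputable def logDisc (L : Type) [Field L] [NumberField L] : ℝ :=
  Real.log |(NumberField.discr L : ℝ)| / Module.finrank ℚ L

/-- The ideal of the reduced fibre over `a`. -/
noncomputable def fibre (k A : Type) [Field k] [CommRing A] [Algebra k A] [Algebra k[X] A]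
    (a : k) : Ideal A :=
  (Ideal.span {coord k A - algebraMap k A a}).radical

/-- `∑_j (1 - n_j / N)` for a curve, where `n_j = dim (A / rad (t - a_j))` is the number of the
geometric points over `a_j` and `N` is the rank of `A` over `k[t]`. If `t` is unramified outside the
fibres over the `a_j`, this is `2 + (deg K) / N`, where `K` is a canonical divisor of the curve. -/
noncomputable def degree (k A : Type) [Field k] [CommRing A] [Algebra k A]
    [Algebra k[X] A] {q : ℕ} (a : Fin q → k) : ℝ :=
  ∑ j, (1 - (Module.finrank k (A ⧸ fibre k A (a j)) : ℝ) / Module.finrank k[X] A)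

/-- The tuples `(x_1, …, x_m)` of elements of `K`, of whatever height, different from the `a_j`,
for which the truncated counting functions of the `x_i` with respect to `[a_1] + … + [a_q]` are at
most `log X`. -/
def Tuples {K : Type} [Field K] [NumberField K] {q : ℕ} (m : ℕ) (a : Fin q → K) (X : ℝ) :
    Set (Fin m → K) :=
  {x | ∀ i, (∀ j, x i ≠ a j) ∧ counting a (x i) ≤ Real.log X}

open Classical in
theorem counting_eq {K : Type} [Field K] [NumberField K] {q : ℕ}
    (a : Fin q → K) {x : K} (hx : ∀ j, x ≠ a j) :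
    counting a x = Pool.Agent.TH876.KR.counting (Pool.Agent.Y557.OE.noS K)
      (fun j => Pool.Agent.Y728.AK.pK (a j)) ![x, 1] := by
  rw [← Pool.Agent.Y728.AK.cntK_eq ∅ a hx]
  unfold counting Pool.Agent.Y728.AK.cntK Pool.Agent.Y728.AK.NearK
  refine finsum_congr fun v => ?_
  by_cases h : ∃ j,
      v.valuation K (x - a j) < max (v.valuation K (a j)) 1 * max (v.valuation K x) 1
  · exact (if_pos h).trans (if_pos ⟨Finset.notMem_empty v, h⟩).symm
  · exact (if_neg h).trans (if_neg fun h' => h h'.2).symm

theorem form_iff {K : Type} [Field K] {a x : K} :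
    Pool.Agent.TH876.KR.form (Pool.Agent.Y728.AK.pK a) ![x, 1] ≠ 0 ↔ x ≠ a := by
  have e : Pool.Agent.TH876.KR.form (Pool.Agent.Y728.AK.pK a) ![x, 1] = a - x := by
    show a * 1 - 1 * x = a - x
    ring
  rw [e, sub_ne_zero]
  exact ne_comm

theorem tuples_eq {K : Type} [Field K] [NumberField K] {m q : ℕ} (a : Fin q → K) (X : ℝ) :
    Tuples m a X = Pool.Agent.Y728.MN.TupG (Pool.Agent.Y557.OE.noS K)
      (fun j => Pool.Agent.Y728.AK.pK (a j)) ∅ X := by
  ext x
  constructor
  · intro h
    refine ⟨fun i => ⟨fun j => form_iff.2 ((h i).1 j), ?_⟩, fun p hp =>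
      absurd hp (Finset.notMem_empty p)⟩
    rw [← counting_eq a (h i).1]
    exact (h i).2
  · rintro ⟨h, -⟩ i
    have h3 : ∀ j, x i ≠ a j := fun j => form_iff.1 ((h i).1 j)
    refine ⟨h3, ?_⟩
    rw [counting_eq a h3]
    exact (h i).2

theorem fibre_ne {k A : Type} [Field k] [CommRing A] [IsDomain A] [Algebra k A] [Algebra k[X] A]
    [IsScalarTower k k[X] A] [FaithfulSMul k[X] A] (a : k) : fibre k A a ≠ ⊥ := by
  intro h
  have h1 : coord k A - algebraMap k A a ∈ fibre k A a :=
    Ideal.le_radical (Ideal.mem_span_singleton_self _)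
  rw [h, Ideal.mem_bot, coord, IsScalarTower.algebraMap_apply k k[X] A, ← map_sub,
    map_eq_zero_iff _ (FaithfulSMul.algebraMap_injective k[X] A)] at h1
  exact X_sub_C_ne_zero a h1

/-- no prime is counted if the equations of the divisor are `1 = 0` -/
theorem trn_zero {K k : Type} [Field K] [NumberField K] [Field k] [NumberField k] {m q : ℕ}
    {A : Fin m → Type} [∀ i, CommRing (A i)] [∀ i, Algebra k (A i)] [∀ i, Algebra k[X] (A i)]
    (a : Fin q → K) {L : Type} [Field L] [NumberField L] [Algebra K L] [Algebra k L]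
    (φ : ∀ i, A i →ₐ[k] L) :
    Pool.Agent.Y557.OE.trnU (∅ : Finset (HeightOneSpectrum (𝓞 k))) a (fun _ _ => 1)
      (fun _ _ _ => (1 : A _)) ∅ φ = 0 := by
  classical
  unfold Pool.Agent.Y557.OE.trnU
  rw [finsum_eq_zero_of_forall_eq_zero]
  intro w
  refine if_neg ?_
  rintro ⟨-, ⟨i, -, j, -, h⟩ | ⟨p, hp, -⟩⟩
  · have h1 := h 0
    rw [map_one, map_one] at h1
    exact lt_irrefl _ h1
  · exact absurd hp (Finset.notMem_empty p)

/-- **The discriminants of algebraic points, one exceptional set for all curves over all number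
fields and all products, points of all heights.** Let `K` be a number field, `a_1, …, a_q` distinct
elements of `K`, `q ≥ 3`, and `m ≥ 1`.

(1) The number of the tuples `x = (x_1, …, x_m)` of elements of `K`, of whatever height, for which
all `x_i` have truncated counting function `≤ log X` with respect to `[a_1] + … + [a_q]` is
`X ^ (2 m / q + o(1))`.

(2) For every `κ > 0` there is a set `E ⊆ K ^ m` such that at most `C X ^ (2 m / q - ν)` of these
tuples, for large `X` at most `X ^ (-ν)` times their number, are in `E`, and such that the following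
holds for all number fields `k` containing `K`. For `i = 1, …, m` let `A_i` be a Dedekind domain,
finite over `k[t]` and containing it (the ring of functions of a smooth affine curve over `k` which
is finite over the `t`-line), of rank `N_i`, and let `n_{i j} = dim (A_i / rad (t - a_j))`. Then
there is a constant `c` such that for all tuples `x` of elements of `K`, different from the `a_j`,
which are not in `E`, all points `P` of the product of the curves with `t_i(P) = x_i` for all `i`
and all number fields `L ⊇ k` over which `P` is defined satisfy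
`∑_i (∑_j (1 - n_{i j} / N_i) - κ) h(x_i) ≤ d(L) + c`. -/
theorem result (K : Type) [Field K] [NumberField K] (q : ℕ) (hq : 3 ≤ q) (a : Fin q → K)
    (ha : Function.Injective a) (m : ℕ) (hm : 0 < m) :
    (∀ δ : ℝ, 0 < δ →
      (∃ C : ℝ, ∀ X : ℝ, 1 ≤ X → (Tuples m a X).Finite ∧
        ((Tuples m a X).ncard : ℝ) ≤ C * X ^ (2 * m / (q : ℝ) + δ)) ∧
      ∃ X₀ : ℝ, ∀ X : ℝ, X₀ ≤ X →
        X ^ (2 * m / (q : ℝ) - δ) ≤ ((Tuples m a X).ncard : ℝ)) ∧
    ∀ κ : ℝ, 0 < κ → ∃ E : Set (Fin m → K),
      (∃ ν C : ℝ, 0 < ν ∧ 0 < C ∧ ∀ X : ℝ, 1 ≤ X →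
        ((E ∩ Tuples m a X).ncard : ℝ) ≤ C * X ^ (2 * m / (q : ℝ) - ν)) ∧
      (∃ ν X₀ : ℝ, 0 < ν ∧ ∀ X : ℝ, X₀ ≤ X →
        ((E ∩ Tuples m a X).ncard : ℝ) ≤ X ^ (-ν) * ((Tuples m a X).ncard : ℝ)) ∧
      ∀ (k : Type) [Field k] [NumberField k] [Algebra K k] (A : Fin m → Type)
        [∀ i, CommRing (A i)] [∀ i, IsDedekindDomain (A i)] [∀ i, Algebra k (A i)]
        [∀ i, Algebra k[X] (A i)] [∀ i, IsScalarTower k k[X] (A i)]
        [∀ i, Module.Finite k[X] (A i)] [∀ i, FaithfulSMul k[X] (A i)], ∃ c : ℝ,
          ∀ x : Fin m → K, x ∉ E → (∀ i j, x i ≠ a j) →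
          ∀ (L : Type) [Field L] [NumberField L] [Algebra K L] [Algebra k L]
            [IsScalarTower K k L] (φ : ∀ i, A i →ₐ[k] L),
            (∀ i, φ i (coord k (A i)) = algebraMap K L (x i)) →
            ∑ i, (degree k (A i) (fun j => algebraMap K k (a j)) - κ) * height (x i) ≤
              logDisc L + c := by
  classical
  have hS : (Pool.Agent.Y557.OE.noS K).Finite := Finset.finite_toSet _
  have ha' : ∀ i j, i ≠ j → Pool.Agent.TH876.KR.form
      ((fun j => Pool.Agent.Y728.AK.pK (a j)) i) ((fun j => Pool.Agent.Y728.AK.pK (a j)) j) ≠ 0 :=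
    fun i j hij => Pool.Agent.Y728.AK.formK_ne' fun h => hij (ha h)
  have hlow : ∀ δ : ℝ, 0 < δ → ∃ X₀ : ℝ, 1 ≤ X₀ ∧ ∀ X : ℝ, X₀ ≤ X →
      X ^ (2 * m / (q : ℝ) - δ) ≤ ((Tuples m a X).ncard : ℝ) := by
    intro δ hδ
    simp only [tuples_eq]
    exact Pool.Agent.Y728.MN.tup_low hq hm hS ha'
      (fun p hp => absurd hp (Finset.notMem_empty p)) δ hδ
  refine ⟨fun δ hδ => ⟨?_, ?_⟩, fun κ hκ => ?_⟩
  · simp only [tuples_eq]
    exact Pool.Agent.Y728.MN.tup_all hq hm hS ha' ∅ δ hδ
  · obtain ⟨X0, -, h⟩ := hlow δ hδ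
    exact ⟨X0, h⟩
  obtain ⟨E, hupp, hE⟩ := Pool.Agent.Y557.OE.one_exc K hm hq a ha (κ := κ / 2) (by positivity)
  have hupp' : ∃ ν C : ℝ, 0 < ν ∧ 0 < C ∧ ∀ X : ℝ, 1 ≤ X →
      ((E ∩ Tuples m a X).ncard : ℝ) ≤ C * X ^ (2 * m / (q : ℝ) - ν) := by
    simp only [tuples_eq]
    exact hupp
  refine ⟨E, hupp', ?_, ?_⟩
  · obtain ⟨ν, C, hν, hC, h1⟩ := hupp'
    obtain ⟨X0, hX0, h2⟩ := hlow (ν / 2) (by positivity)
    exact ⟨ν / 4, _, by positivity, Pool.Agent.Y728.AK.ratio_of hν hC hX0 h1 h2⟩
  intro k _ _ _ A _ _ _ _ _ _ _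
  obtain ⟨c, hc⟩ := Pool.Agent.Y557.OE.coreU hq a (fun _ _ => 1) (fun i _ _ => (1 : A i))
    (fun i j => fibre k (A i) (algebraMap K k (a j))) (fun i j => fibre_ne _)
    (fun i j l e he => by
      rw [one_mul]
      exact he) (G := ∅) (fun p hp => absurd hp (Finset.notMem_empty p))
    (∅ : Finset (HeightOneSpectrum (𝓞 k))) hκ
  obtain ⟨d, hd⟩ : ∃ d : ℝ, d = (Module.finrank ℚ K : ℝ) := ⟨_, rfl⟩
  have hd0 : 0 < d := by rw [hd]; exact_mod_cast Module.finrank_pos
  refine ⟨c / d, ?_⟩
  intro x hxE hxa L _ _ _ _ _ φ hφ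
  obtain ⟨hinj, hnn⟩ := hE x hxE hxa
  have h1 := hc x hxa hinj hnn L φ hφ
  rw [trn_zero, Finset.sum_empty, add_zero, add_zero] at h1
  have hfd : FiniteDimensional K L := Module.Finite.of_restrictScalars_finite ℚ K L
  obtain ⟨mL, hmL⟩ : ∃ mL : ℝ, mL = (Module.finrank K L : ℝ) := ⟨_, rfl⟩
  have hm0 : 0 < mL := by rw [hmL]; exact_mod_cast Module.finrank_pos
  have htow : (Module.finrank ℚ L : ℝ) = d * mL := by
    rw [hd, hmL]
    exact_mod_cast (Module.finrank_mul_finrank ℚ K L).symm
  obtain ⟨lL, hlL⟩ : ∃ lL : ℝ, lL = Real.log |(NumberField.discr L : ℝ)| := ⟨_, rfl⟩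
  obtain ⟨R, hR⟩ : ∃ R : ℝ, R = ∑ i, ((q : ℝ) - (∑ j, (Module.finrank k
      (A i ⧸ fibre k (A i) (algebraMap K k (a j))) : ℝ)) / Module.finrank k[X] (A i) - κ) *
        Height.logHeight₁ (x i) := ⟨_, rfl⟩
  rw [← hR, ← hmL, ← hlL] at h1
  have e1 : ∑ i, (degree k (A i) (fun j => algebraMap K k (a j)) - κ) * height (x i) = R / d := by
    rw [hR, Finset.sum_div]
    refine Finset.sum_congr rfl fun i _ => ?_
    unfold degree height
    rw [← hd, Finset.sum_sub_distrib, Finset.sum_const, Finset.card_univ, Fintype.card_fin,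
      nsmul_eq_mul, mul_one, Finset.sum_div]
    ring
  rw [e1]
  unfold logDisc
  rw [← hlL, htow]
  have h2 : R ≤ (lL + mL * c) / mL := by
    rw [le_div_iff₀ hm0]
    linarith
  have h3 : R / d ≤ (lL + mL * c) / mL / d := div_le_div_of_nonneg_right h2 hd0.le
  refine h3.trans (le_of_eq ?_)
  field_simp

end Pool.Agent.Results.MP_9b9442_nt.OneExceptionalSet
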