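import Mathlib
import Pool.Agent.Y724.T4.FIN2

set_option autoImplicit false

/-!
# Vojta's inequality for algebraic points of bounded degree, for all smooth projective varieties and
all normal crossings divisors, at the points with sparse coordinates in a sparse order

`X` is a smooth projective variety of dimension `N` over `ℚ` in `ℙ^(N + s)` with the equations
`G k = 0`. `D = D_1 + ⋯ + D_q` is a divisor of `X` with strict normal crossings, `D_i` the subvariety
of `X` with the equations `F i j = 0`, `j < w`, `F i j` of degree `d i j`.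
-/

namespace Pool.Agent.Results.MP_9b9442_nt.SparseOrders

open MvPolynomial NumberField

/-! ### The pair -/

/-- The dimension of `X` is at least `N`: some `N + 1` coordinates are algebraically independent on
the cone over `X`. -/
def DimGE {M g : ℕ} (N : ℕ) (G : Fin g → MvPolynomial (Fin M) ℤ) : Prop :=
  ∃ J : Fin (N + 1) → Fin M, ∀ P : MvPolynomial (Fin (N + 1)) ℚ,
    (∀ z : Fin M → ℂ, (∀ k, aeval z (G k) = 0) → aeval (fun i => z (J i)) P = 0) → P = 0

/-- `X` is smooth of codimension `s` and `D` has strict normal crossings on `X`: at every complex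
point `z` of `X`, for suitable `s` equations of `X` and one equation of each component of `D`
through `z`, all gradients at `z` are linearly independent. -/
def SmoothPair {M g q w : ℕ} (s : ℕ) (G : Fin g → MvPolynomial (Fin M) ℤ)
    (F : Fin q → Fin w → MvPolynomial (Fin M) ℤ) : Prop :=
  ∀ z : Fin M → ℂ, z ≠ 0 → (∀ k, aeval z (G k) = 0) →
    ∃ (K : Fin s → Fin g) (J : Fin q → Fin w),
      LinearIndependent ℂ (Sum.elim
        (fun a : Fin s => fun y : Fin M => aeval z (pderiv y (G (K a))))
        (fun i : {i : Fin q // ∀ j, aeval z (F i j) = 0} => fun y : Fin M =>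
          aeval z (pderiv y (F i.1 (J i.1)))))

section field
variable {K : Type} [Field K]

/-- `x` represents a point of the variety `X` over the field `K` -/
def OnX {M g : ℕ} (G : Fin g → MvPolynomial (Fin M) ℤ) (x : Fin M → K) : Prop :=
  ∀ k, aeval x (G k) = 0

/-- The local height at the absolute value `v` of the subvariety with the equations `F j = 0`: minus
the logarithm of `max_j (|F j x|_v / max_i |x_i|_v ^ d j)`. -/
noncomputable def localHeight {M w : ℕ} (F : Fin w → MvPolynomial (Fin M) ℤ) (d : Fin w → ℕ)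
    (x : Fin M → K) (v : AbsoluteValue K ℝ) : ℝ :=
  -Real.log (⨆ j, v (aeval x (F j)) / (⨆ i, v (x i)) ^ d j)

/-- The columns of `T` are a basis of the tangent space of the affine cone over `X` at `x` (the
vectors orthogonal to all gradients of equations), `X` being smooth of dimension `N` at `x`. -/
def IsTangentBasis {M N g : ℕ} (G : Fin g → MvPolynomial (Fin M) ℤ) (x : Fin M → K)
    (T : Matrix (Fin M) (Fin (N + 1)) K) : Prop :=
  LinearIndependent K (fun c : Fin (N + 1) => fun j : Fin M => T j c) ∧
    ∀ k c, ∑ j, aeval x (pderiv j (G k)) * T j c = 0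

variable [NumberField K]

variable (K) in
/-- the finite places of `K` over the primes in `S` -/
def placesOver (S : Finset ℕ) : Set (FinitePlace K) :=
  {v | ∃ p ∈ S, v (p : K) < 1}

/-- The proximity function `m_{S,D}(x)` of `D = D_1 + ⋯ + D_q` for the infinite place and the primes
`p ∈ S`: the average over the places of `K` above them. (Mathlib's absolute value of a finite place
is normalised so that the product formula holds without exponents.) -/
noncomputable def proximity {M q w : ℕ} (F : Fin q → Fin w → MvPolynomial (Fin M) ℤ)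
    (d : Fin q → Fin w → ℕ) (S : Finset ℕ) (x : Fin M → K) : ℝ :=
  (∑ i, (∑ v : InfinitePlace K, v.mult * localHeight (F i) (d i) x v.1 +
    ∑ᶠ v ∈ placesOver K S, localHeight (F i) (d i) x v.1)) / Module.finrank ℚ K

/-- the absolute logarithmic height of the point with the homogeneous coordinates `x` -/
noncomputable def height {M : ℕ} (x : Fin M → K) : ℝ :=
  Height.logHeight x / Module.finrank ℚ K

/-- The height `h_K(x)` for the canonical class `K` of `X`. The Gauss map `γ` sends a point of `X` to
its embedded tangent space, `γ^* O(1) = K + (N + 1) H` for the hyperplane class `H`, and `h_K(x)` is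
the height of `γ(x)` (whose Plücker coordinates are the maximal minors of `T`) minus
`(N + 1) h(x)`. -/
noncomputable def canonicalHeight {M N : ℕ} (x : Fin M → K)
    (T : Matrix (Fin M) (Fin (N + 1)) K) : ℝ :=
  (Height.logHeight (fun J : Fin (N + 1) → Fin M => (T.submatrix J id).det) -
    (N + 1) * Height.logHeight x) / Module.finrank ℚ K

variable (K) in
/-- the logarithmic discriminant `d(K)` -/
noncomputable def logDisc : ℝ :=
  Real.log |((NumberField.discr K : ℤ) : ℝ)| / Module.finrank ℚ K

/-- The logarithmic discriminant of the basis `ω`, without the primes in `S`: `1 / [K : ℚ]` times the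
logarithm of the part prime to `S` of the discriminant of `ω` (`log |disc|` minus the contributions
`- log |disc|_p` of the primes `p ∈ S`). -/
noncomputable def logDiscBasis {n : ℕ} (S : Finset ℕ) (ω : Module.Basis (Fin n) ℚ K) : ℝ :=
  (Real.log |((Algebra.discr ℚ ω : ℚ) : ℝ)| +
    ∑ p ∈ S, Real.log ((padicNorm p (Algebra.discr ℚ ω) : ℚ) : ℝ)) / Module.finrank ℚ K

/-- The parameters of the vector `x` in the number field with the basis `ω`: the structure constants
of `ω` (the coordinates of the products `ω i * ω j`) and the coordinates of the `x y` in the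
basis. -/
noncomputable def params {n M : ℕ} (ω : Module.Basis (Fin n) ℚ K) (x : Fin M → K) :
    (Fin n × Fin n × Fin n) ⊕ (Fin M × Fin n) → ℚ :=
  Sum.elim (fun t => ω.repr (ω t.1 * ω t.2.1) t.2.2) (fun t => ω.repr (x t.1) t.2)

/-- All algebraic integers of `K` are combinations of the `ω i` with `S`-integral coefficients. If
the structure constants of `ω` are `S`-integral as well, then `ω` is a basis over `ℤ_S` of the ring
of `S`-integers of `K`. -/
def SpansIntegers {n : ℕ} (S : Finset ℕ) (ω : Module.Basis (Fin n) ℚ K) : Prop :=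
  ∀ (y : 𝓞 K) (i : Fin n) (p : ℕ), p.Prime → p ∣ (ω.repr (y : K) i).den → p ∈ S

end field

/-! ### Short sums of `S`-units -/

/-- `u` is an `S`-unit: plus or minus a product of powers (with integer exponents) of the primes in
`S` -/
def IsSUnit (S : Finset ℕ) (u : ℚ) : Prop :=
  ∃ (σ : ℤ) (e : ℕ → ℤ), (σ = 1 ∨ σ = -1) ∧ u = σ * ∏ p ∈ S, (p : ℚ) ^ e p

/-- the maximum of the absolute values of the numerators and denominators of the `z i` -/
def size {ι : Type} [Fintype ι] (z : ι → ℚ) : ℕ :=
  Finset.univ.sup (fun i => max (z i).num.natAbs (z i).den)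

/-- The rational vector `z` is a sum of `l` integer vectors with entries of absolute value at most
`B * H ^ δ`, `H` the size of `z`, multiplied by `S`-units. -/
def IsShortSum {ι : Type} [Fintype ι] (S : Finset ℕ) (l : ℕ) (B δ : ℝ) (z : ι → ℚ) : Prop :=
  ∃ (u : Fin l → ℚ) (m : Fin l → ι → ℤ), (∀ j, IsSUnit S (u j)) ∧
    (∀ j i, |(m j i : ℝ)| ≤ B * (size z : ℝ) ^ δ) ∧ ∀ i, z i = ∑ j, u j * m j i

/-- **Main theorem.** Let `X` be a smooth projective variety of dimension `N` over `ℚ` in
`ℙ^(N + s)` and `D` a divisor of `X` with strict normal crossings. Let `S` be a finite set of primes,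
`r` and `l` natural numbers, `A`, `B` and `ε > 0` real numbers. There are `δ > 0`, a form `Φ` that
does not vanish on `X` and a constant `C` such that for all number fields `K` of degree `n ≤ r`, all
bases `ω` of `K` and all points `x` of `X` over `K`, off `D` and off `Φ = 0`, such that the structure
constants of `ω` and the coordinates of `x` with respect to `ω` together form a sum of `l` integer
vectors with entries of absolute value at most `B H ^ δ` (`H` the size of these parameters) multiplied
by `S`-units: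
* `m_{S,D}(x) + h_K(x) ≤ d_S(ω) + ε log H + C`, `d_S(ω)` the logarithmic discriminant of `ω` without
  the primes in `S`;
* if `ω` is a basis of the `S`-integers of `K` and `log H ≤ A (h(x) + 1)`, then `x` satisfies Vojta's
  inequality `m_{S,D}(x) + h_K(x) - d(K) ≤ ε h(x) + C`. -/
theorem result (N s g q w : ℕ) (G : Fin g → MvPolynomial (Fin (N + s + 1)) ℤ) (e : Fin g → ℕ)
    (hG : ∀ k, (G k).IsHomogeneous (e k)) (F : Fin q → Fin w → MvPolynomial (Fin (N + s + 1)) ℤ)
    (d : Fin q → Fin w → ℕ) (hF : ∀ i j, (F i j).IsHomogeneous (d i j))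
    (hdim : DimGE N G) (hsm : SmoothPair s G F) (S : Finset ℕ) (hS : ∀ p ∈ S, p.Prime)
    (r l : ℕ) (A B ε : ℝ) (hε : 0 < ε) :
    ∃ (δ : ℝ) (Φ : MvPolynomial (Fin (N + s + 1)) ℚ) (k : ℕ) (C : ℝ), 0 < δ ∧
      Φ.IsHomogeneous k ∧
      (∃ z : Fin (N + s + 1) → ℂ, (∀ k, aeval z (G k) = 0) ∧ aeval z Φ ≠ 0) ∧
      ∀ (n : ℕ), n ≤ r → ∀ (K : Type) [Field K] [NumberField K] (ω : Module.Basis (Fin n) ℚ K)
        (x : Fin (N + s + 1) → K), OnX G x → IsShortSum S l B δ (params ω x) →
        aeval x Φ ≠ 0 → (∀ i, ∃ j, aeval x (F i j) ≠ 0) →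
        ∀ T : Matrix (Fin (N + s + 1)) (Fin (N + 1)) K, IsTangentBasis G x T →
          proximity F d S x + canonicalHeight x T ≤
            logDiscBasis S ω + ε * Real.log (size (params ω x)) + C ∧
          (SpansIntegers S ω → Real.log (size (params ω x)) ≤ A * (height x + 1) →
            proximity F d S x + canonicalHeight x T - logDisc K ≤ ε * height x + C) := by
  classical
  obtain ⟨J, hJ⟩ := hdim
  -- the primes
  set S' : Finset ℕ := S ∪ (Finset.range (r * r + 1)).filter Nat.Prime with hS'def
  have hSS : S ⊆ S' := Finset.subset_union_left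
  have hS' : ∀ p ∈ S', p.Prime := by
    intro p hp
    rcases Finset.mem_union.1 hp with h | h
    · exact hS p h
    · exact (Finset.mem_filter.1 h).2
  have hsmall : ∀ p : ℕ, p.Prime → p ≤ r * r → p ∈ S' := by
    intro p hp hpr
    exact Finset.mem_union_right _ (Finset.mem_filter.2 ⟨Finset.mem_range.2 (by omega), hp⟩)
  set b : Fin S'.card → ℕ := fun v => (S'.equivFin.symm v : ℕ) with hb
  have hbS : ∀ v, b v ∈ S' := fun v => (S'.equivFin.symm v).2
  have hbp : ∀ v, (b v).Prime := fun v => hS' _ (hbS v)
  have hbi : Function.Injective b := by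
    intro v v' h
    exact S'.equivFin.symm.injective (Subtype.ext h)
  have hSb : ∀ p ∈ S', ∃ v, b v = p := by
    intro p hp
    exact ⟨S'.equivFin ⟨p, hp⟩, by rw [hb]; simp⟩
  have hunit : ∀ u : ℚ, IsSUnit S u → Pool.Agent.TH551.SU.IsSU b u := by
    rintro u ⟨σ, e, hσ, rfl⟩
    refine ⟨σ, fun v => if b v ∈ S then e (b v) else 0, hσ, ?_⟩
    congr 1
    have h1 : ∏ p ∈ S, (p : ℚ) ^ e p = ∏ p ∈ S', (p : ℚ) ^ (if p ∈ S then e p else 0) := by
      rw [← Finset.prod_subset hSS (f := fun p : ℕ => (p : ℚ) ^ (if p ∈ S then e p else 0))]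
      · exact Finset.prod_congr rfl fun p hp => by rw [if_pos hp]
      · intro p _ hp
        rw [if_neg hp, zpow_zero]
    rw [h1, ← Finset.prod_coe_sort S' (fun p : ℕ => (p : ℚ) ^ (if p ∈ S then e p else 0)),
      ← Equiv.prod_comp S'.equivFin.symm]
  -- smoothness
  have hev : ∀ (z : Fin (N + s + 1) → ℂ) (P : MvPolynomial (Fin (N + s + 1)) ℤ),
      Pool.Agent.Y724.Vj.evi z P = aeval z P := by
    intro z P
    unfold Pool.Agent.Y724.Vj.evi
    rw [aeval_def]
    congr 1
  have hnc : Pool.Agent.Y724.Vj.NCf ℂ s G F := by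
    intro z hz hzG
    obtain ⟨K, J', h⟩ := hsm z hz (fun k => by rw [← hev]; exact hzG k)
    refine ⟨K, J', ?_⟩
    simp only [hev]
    exact h
  -- the inequality for fields of degree `n`
  set A' : ℝ := |A| + 1 with hA'
  have hA'0 : 0 < A' := by positivity
  have hε' : 0 < ε / A' := div_pos hε hA'0
  have hmain : ∀ n : ℕ, ∃ (δ : ℝ) (Ψ : MvPolynomial (Fin (N + 1)) ℚ) (k : ℕ) (C : ℝ), 0 < δ ∧
      Ψ ≠ 0 ∧ Ψ.IsHomogeneous k ∧
      (0 < n → ∀ (K : Type) [Field K] [NumberField K] (ω : Module.Basis (Fin n) ℚ K)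
        (x : Fin (N + s + 1) → K), (∀ a, aeval x (G a) = 0) →
        Pool.Agent.Y724.T4.ShortI b l (max B 1) δ (Pool.Agent.Y724.T4.prm ω x) →
        aeval (fun i => x (J i)) Ψ ≠ 0 →
        ∀ AA : Matrix (Fin (N + s + 1)) (Fin (N + 1)) K, LinearIndependent K AA.col →
          (∀ a c, ∑ y, aeval x (pderiv y (G a)) * AA y c = 0) →
          ∑ i, (∑ v : InfinitePlace K, v.mult * Pool.Agent.Y724.T4.locH (F i) (d i) x v.1 +
            ∑ᶠ v ∈ Pool.Agent.Y724.T4.Over K S', Pool.Agent.Y724.T4.locH (F i) (d i) x v.1) +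
            Height.logHeight (fun J : Fin (N + 1) → Fin (N + s + 1) =>
              (AA.submatrix J id).det) ≤
            (N + 1 : ℕ) * Height.logHeight x +
              ∑ᶠ v ∈ (Pool.Agent.Y724.T4.Over K S')ᶜ, Real.log (⨆ i, v (ω.traceDual i)) +
                (ε / A' * Real.log (Pool.Agent.Y724.T4.sz (Pool.Agent.Y724.T4.prm ω x) : ℝ) +
                  C)) := by
    intro n
    rcases Nat.eq_zero_or_pos n with hn | hn
    · exact ⟨1, 1, 0, 0, one_pos, one_ne_zero, isHomogeneous_one _ _,
        fun h => absurd h (by omega)⟩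
    · obtain ⟨δ, Ψ, k, C, h1, h2, h3, h4⟩ := Pool.Agent.Y724.T4.main6a (r := n) (sc := s) b hbp hbi
        S' hbS hSb (by omega) G e hG F d hF hnc J (max B 1) (le_max_right _ _) (ε / A') hε' l hn
      exact ⟨δ, Ψ, k, C, h1, h2, h3, fun _ => h4⟩
  choose δ Ψ k C hδ hΨ0 hΨh hineq using hmain
  set R := Finset.range (r + 1) with hR
  have hδinv : 0 < ∑ n ∈ R, (δ n)⁻¹ :=
    Finset.sum_pos (fun n _ => inv_pos.2 (hδ n)) ⟨0, Finset.mem_range.2 (Nat.succ_pos r)⟩
  have hδle : ∀ n ≤ r, (∑ n ∈ R, (δ n)⁻¹)⁻¹ ≤ δ n := by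
    intro n hn
    rw [inv_le_comm₀ hδinv (hδ n)]
    exact Finset.single_le_sum (f := fun n => (δ n)⁻¹) (fun n _ => (inv_pos.2 (hδ n)).le)
      (Finset.mem_range.2 (by omega))
  refine ⟨(∑ n ∈ R, (δ n)⁻¹)⁻¹, rename J (∏ n ∈ R, Ψ n), ∑ n ∈ R, k n,
    ∑ n ∈ R, |C n| + ε, inv_pos.2 hδinv,
    (IsHomogeneous.prod R Ψ k (fun n _ => hΨh n)).rename_isHomogeneous, ?_, ?_⟩
  · by_contra hcon
    push Not at hcon
    have h0 : ∏ n ∈ R, Ψ n = 0 := by
      apply hJ
      intro z hz
      have := hcon z hz
      rw [aeval_rename] at this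
      exact this
    exact (Finset.prod_ne_zero_iff.2 fun n _ => hΨ0 n) h0
  · intro n hn K _ _ ω x hX hshort hΦ _ T hT
    have hnK : Module.finrank ℚ K = n := by
      rw [Module.finrank_eq_card_basis ω, Fintype.card_fin]
    have hn0 : 0 < n := by
      rw [← hnK]
      exact Module.finrank_pos
    have hΨx : aeval (fun i => x (J i)) (Ψ n) ≠ 0 := by
      intro h0
      apply hΦ
      rw [aeval_rename, map_prod]
      exact Finset.prod_eq_zero (Finset.mem_range.2 (by omega)) h0
    have hne : Nonempty ((Fin n × Fin n × Fin n) ⊕ (Fin (N + s + 1) × Fin n)) :=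
      ⟨Sum.inl (⟨0, hn0⟩, ⟨0, hn0⟩, ⟨0, hn0⟩)⟩
    have hsz1 : (1 : ℝ) ≤ (size (params ω x) : ℝ) := by
      have := Pool.Agent.Y724.T4.one_le_sz (params ω x)
      exact_mod_cast this
    have hls : 0 ≤ Real.log (size (params ω x) : ℝ) := Real.log_nonneg hsz1
    have hsh : Pool.Agent.Y724.T4.ShortI b l (max B 1) (δ n) (Pool.Agent.Y724.T4.prm ω x) := by
      obtain ⟨u, m, h2, h3, h4⟩ := hshort
      refine ⟨u, m, fun j => hunit _ (h2 j), fun j y => ?_, h4⟩
      refine (h3 j y).trans ?_
      have h5 : (size (params ω x) : ℝ) ^ (∑ n ∈ R, (δ n)⁻¹)⁻¹ ≤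
          (size (params ω x) : ℝ) ^ δ n := Real.rpow_le_rpow_of_exponent_le hsz1 (hδle n hn)
      exact mul_le_mul (le_max_left _ _) h5 (Real.rpow_nonneg (Nat.cast_nonneg _) _)
        (by positivity)
    have h1 := hineq n hn0 K ω x hX hsh hΨx T hT.1 hT.2
    -- integrality of the structure constants
    have hint : ∀ i j l p, p.Prime → p ∉ S → padicNorm p (ω.repr (ω i * ω j) l) ≤ 1 := by
      intro i j h p hp hpS
      obtain ⟨u, m, h2, h3, h4⟩ := hshort
      set b0 : Fin S.card → ℕ := fun v => (S.equivFin.symm v : ℕ) with hb0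
      have hu0 : ∀ u : ℚ, IsSUnit S u → Pool.Agent.TH551.SU.IsSU b0 u := by
        rintro u ⟨σ, e, hσ, rfl⟩
        refine ⟨σ, fun v => e (b0 v), hσ, ?_⟩
        congr 1
        rw [← Finset.prod_coe_sort S (fun p => (p : ℚ) ^ e p),
          ← Equiv.prod_comp S.equivFin.symm]
      have h5 : Pool.Agent.Y724.T4.ShortI b0 l B ((∑ n ∈ R, (δ n)⁻¹)⁻¹)
          (Pool.Agent.Y724.T4.prm ω x) := ⟨u, m, fun j => hu0 _ (h2 j), h3, h4⟩
      exact Pool.Agent.Y724.T4.short_int b0 (fun v => hS _ (S.equivFin.symm v).2) h5
        (Sum.inl (i, j, h)) p hp (fun v hv => hpS (by rw [← hv]; exact (S.equivFin.symm v).2))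
    -- the discriminant
    have h2 := Pool.Agent.Y724.T4.dsc K S' hS' n hnK
      (fun p hp hpn => hsmall p hp (hpn.trans (Nat.mul_le_mul hn hn))) ω ω.traceDual
      (fun i j l => ω.repr (ω i * ω j) l) (Pool.Agent.Y724.T4.mul_rel ω)
      (fun i j l p hp hpS => hint i j l p hp (fun h => hpS (hSS h)))
      (fun i j => ω.trace_mul_traceDual i j)
    have h3 := Pool.Agent.Y724.T4.discr_mono ω hSS hS' hint
    have h4 : ∑ i, (∑ v : InfinitePlace K, v.mult * localHeight (F i) (d i) x v.1 +
        ∑ᶠ v ∈ placesOver K S, localHeight (F i) (d i) x v.1) ≤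
        ∑ i, (∑ v : InfinitePlace K, v.mult * Pool.Agent.Y724.T4.locH (F i) (d i) x v.1 +
            ∑ᶠ v ∈ Pool.Agent.Y724.T4.Over K S', Pool.Agent.Y724.T4.locH (F i) (d i) x v.1) := by
      refine Finset.sum_le_sum fun i _ => add_le_add le_rfl ?_
      exact Pool.Agent.Y724.T4.finsum_over_mono hSS hS'
        (fun v => Pool.Agent.Y724.T4.locH (F i) (d i) x v.1)
        (fun v => Pool.Agent.Y724.T4.locH_nonneg (F i) (d i) (hF i) x v)
    have hnR : (0 : ℝ) < n := by exact_mod_cast hn0
    have hn1 : (1 : ℝ) ≤ n := by exact_mod_cast hn0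
    have hCn : C n ≤ ∑ n ∈ R, |C n| :=
      (le_abs_self _).trans (Finset.single_le_sum (f := fun n => |C n|)
        (fun n _ => abs_nonneg _) (Finset.mem_range.2 (by omega)))
    have hC0 : 0 ≤ ∑ n ∈ R, |C n| := Finset.sum_nonneg fun n _ => abs_nonneg _
    have hεA : ε / A' ≤ ε := div_le_self hε.le (by rw [hA']; linarith [abs_nonneg A])
    -- the first inequality with the small constant
    have key : proximity F d S x + canonicalHeight x T ≤
        logDiscBasis S ω + (ε / A' * Real.log (size (params ω x)) + ∑ n ∈ R, |C n|) := by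
      have h5 : proximity F d S x + canonicalHeight x T =
          ((∑ i, (∑ v : InfinitePlace K, v.mult * localHeight (F i) (d i) x v.1 +
            ∑ᶠ v ∈ placesOver K S, localHeight (F i) (d i) x v.1)) +
          Height.logHeight (fun J : Fin (N + 1) → Fin (N + s + 1) => (T.submatrix J id).det) -
            (N + 1) * Height.logHeight x) / n := by
        unfold proximity canonicalHeight
        rw [hnK]
        ring
      have h6 : logDiscBasis S ω = (Real.log |((Algebra.discr ℚ ω : ℚ) : ℝ)| +
          ∑ p ∈ S, Real.log ((padicNorm p (Algebra.discr ℚ ω) : ℚ) : ℝ)) / n := by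
        unfold logDiscBasis
        rw [hnK]
      have h7 : ε / A' * Real.log (size (params ω x)) + ∑ n ∈ R, |C n| ≥
          (ε / A' * Real.log (size (params ω x)) + C n) / n := by
        rw [ge_iff_le, div_le_iff₀ hnR]
        have h8 : 0 ≤ ε / A' * Real.log (size (params ω x)) + ∑ n ∈ R, |C n| :=
          add_nonneg (mul_nonneg hε'.le hls) hC0
        have h9 := le_mul_of_one_le_right h8 hn1
        linarith
      rw [h5, h6]
      refine le_trans ?_ (add_le_add le_rfl h7)
      rw [← add_div]
      refine div_le_div_of_nonneg_right ?_ hnR.le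
      have h10 : (((N + 1 : ℕ) : ℝ)) * Height.logHeight x = (N + 1) * Height.logHeight x := by
        push_cast
        ring
      rw [h10] at h1
      have h11 : Real.log (Pool.Agent.Y724.T4.sz (Pool.Agent.Y724.T4.prm ω x) : ℝ) =
          Real.log (size (params ω x)) := rfl
      rw [h11] at h1
      have h12 := h2.2
      linarith
    constructor
    · refine key.trans ?_
      have h5 : ε / A' * Real.log (size (params ω x)) ≤ ε * Real.log (size (params ω x)) :=
        mul_le_mul_of_nonneg_right hεA hls
      linarith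
    · intro hmax hlog
      have h5 : logDiscBasis S ω ≤ logDisc K := by
        unfold logDiscBasis logDisc
        refine div_le_div_of_nonneg_right ?_ (by positivity)
        refine Pool.Agent.Y724.T4.max2 K S hS n ω fun y i p hp hpS => ?_
        have : Fact p.Prime := ⟨hp⟩
        by_contra hcon
        push Not at hcon
        apply hpS
        refine hmax y i p hp ?_
        by_contra hdv
        have h6 : ¬ 1 < padicNorm p (ω.repr (y : K) i) := by
          rw [not_lt]
          have h7 := Padic.norm_rat_le_one (p := p) hdv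
          rw [Padic.eq_padicNorm] at h7
          exact_mod_cast h7
        exact h6 hcon
      have hh0 : 0 ≤ height x := div_nonneg (Height.logHeight_nonneg _) (by positivity)
      have h6 : Real.log (size (params ω x)) ≤ A' * (height x + 1) := by
        refine hlog.trans (mul_le_mul_of_nonneg_right ?_ (by linarith))
        rw [hA']
        linarith [le_abs_self A]
      have h7 : ε / A' * Real.log (size (params ω x)) ≤ ε * (height x + 1) := by
        have h8 := mul_le_mul_of_nonneg_left h6 hε'.le
        have h9 : ε / A' * (A' * (height x + 1)) = ε * (height x + 1) := by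
          field_simp
        linarith
      linarith

end Pool.Agent.Results.MP_9b9442_nt.SparseOrders
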